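import Pool.Agent.Helper72.LSr.N1
import Pool.Agent.Helper72.LSr.C1

/-!
# Piece LR-I3: identities around `w`, degrees
-/

namespace Pool.Agent.Helper78.LSr

open Finset
open scoped Classical
open Pool.Agent.Helper72.LSr

variable {V : Type} (G : SimpleGraph V) (S : Finset V)

theorem mem_NH' {w x : V} : x ∈ NH G S w ↔ x ∈ S ∧ ¬ G.Adj w x ∧ x ≠ w := by
  unfold NH; rw [mem_filter]

theorem not_mem_NH_self (w : V) : w ∉ NH G S w := by
  rw [mem_NH']; tauto

variable {w : V} (hw : w ∈ S)

include hw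

/-- the complement of the neighbourhood of `w` -/
theorem sdiff_insert_NH : S \ (insert w (NH G S w)) = nb G S w := by
  ext x
  rw [mem_sdiff, mem_insert, mem_NH', mem_nb]
  constructor
  · rintro ⟨h1, h2⟩
    refine ⟨h1, ?_⟩
    by_contra h3
    apply h2
    by_cases h4 : x = w
    · exact Or.inl h4
    · exact Or.inr ⟨h1, h3, h4⟩
  · rintro ⟨h1, h2⟩
    refine ⟨h1, ?_⟩
    rintro (h3 | h3)
    · subst h3; exact G.loopless.irrefl _ h2
    · exact h3.2.1 h2

theorem insert_NH_subset : insert w (NH G S w) ⊆ S := by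
  intro x hx
  rw [mem_insert, mem_NH'] at hx
  rcases hx with rfl | hx
  · exact hw
  · exact hx.1

theorem card_NH_aux : ((NH G S w).card : ℤ) = (S.card : ℤ) - ((nb G S w).card : ℤ) - 1 := by
  have h1 := card_sdiff_add_card_eq_card (insert_NH_subset G S hw)
  rw [sdiff_insert_NH G S hw, card_insert_of_notMem (not_mem_NH_self G S w)] at h1
  omega

omit hw in
theorem K_two_insert_NH : K G (insert w (NH G S w)) 2 = K G (NH G S w) 2 := by
  rw [show (2 : ℕ) = 1 + 1 from rfl, K_insert G (not_mem_NH_self G S w)]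
  have : nb G (NH G S w) w = ∅ := by
    ext x
    rw [mem_nb, mem_NH']
    simp only [notMem_empty, iff_false]
    tauto
  rw [this, show (1 : ℕ) = 0 + 1 from rfl, K_empty, add_zero]

/-- the sum of the degrees over the non-neighbours of `w` -/
theorem sum_deg_NH : ∑ u ∈ NH G S w, ((nb G S u).card : ℤ)
    = K G S 2 - ((nb G S w).card : ℤ) - K G (nb G S w) 2 + K G (NH G S w) 2 := by
  have h := K_two_sdiff G S (insert w (NH G S w)) (insert_NH_subset G S hw)
  rw [sdiff_insert_NH G S hw, K_two_insert_NH G S,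
    sum_insert (not_mem_NH_self G S w)] at h
  linarith

theorem card_NH (k A B : ℕ) :
    ((NH G S w).card : ℤ) = k - 1 + Dv k A B G S w - MS k A B S := by
  rw [card_NH_aux G S hw]
  unfold Dv MS Mm nu
  ring

theorem id_E2 (k A B : ℕ) :
    ∑ u ∈ NH G S w, Dv k A B G S u + Dv k A B G S w
      = (k + 1) * Dv k A B G S w - Yv k A B G S w - rS k A B G S - K G (NH G S w) 2 := by
  have h1 : ∑ u ∈ NH G S w, Dv k A B G S u
      = ((NH G S w).card : ℤ) * (EE k A B + k + 1) - ∑ u ∈ NH G S w, ((nb G S u).card : ℤ) := by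
    unfold Dv
    rw [sum_sub_distrib, sum_const, nsmul_eq_mul]
  rw [h1, sum_deg_NH G S hw, card_NH_aux G S hw]
  unfold Dv Yv rS rho th nu
  ring

omit hw in
/-- the number of neighbours of `w` missed by a non-neighbour `y` -/
theorem card_Qs {y : V} (hy : y ∈ NH G S w) :
    ((Qs G S w y).card : ℤ) = ((nb G S w).card : ℤ) - ((nb G S y).card : ℤ)
      + ((nb G (NH G S w) y).card : ℤ) := by
  have hy' := (mem_NH' G S).1 hy
  -- `N_w = Q_y ∪ (N_w ∩ N_y)`
  have h1 : (nb G S w).card = (Qs G S w y).card + (nb G S w ∩ nb G S y).card := by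
    rw [← card_union_of_disjoint]
    · congr 1
      ext x
      unfold Qs
      rw [mem_union, mem_filter, mem_inter, mem_nb, mem_nb]
      tauto
    · rw [disjoint_left]
      intro x hx hx'
      unfold Qs at hx
      rw [mem_filter] at hx
      rw [mem_inter, mem_nb, mem_nb] at hx'
      exact hx.2.2 hx'.2.2
  -- `N_y = (N_w ∩ N_y) ∪ N_y(H)`
  have h2 : (nb G S y).card = (nb G S w ∩ nb G S y).card + (nb G (NH G S w) y).card := by
    rw [← card_union_of_disjoint]
    · congr 1
      ext x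
      rw [mem_union, mem_inter, mem_nb, mem_nb, mem_nb, mem_NH']
      constructor
      · rintro ⟨hx1, hx2⟩
        by_cases hx3 : G.Adj w x
        · exact Or.inl ⟨⟨hx1, hx3⟩, hx1, hx2⟩
        · refine Or.inr ⟨⟨hx1, hx3, ?_⟩, hx2⟩
          rintro rfl
          exact hy'.2.1 hx2.symm
      · rintro (hx | hx)
        · exact hx.2
        · exact ⟨hx.1.1, hx.2⟩
    · rw [disjoint_left]
      intro x hx hx'
      rw [mem_inter, mem_nb, mem_nb] at hx
      rw [mem_nb, mem_NH'] at hx'
      exact hx'.1.2.1 hx.1.2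
  omega

theorem id_E4 (k A B : ℕ) :
    ∑ y ∈ NH G S w, ((Qs G S w y).card : ℤ) - K G (NH G S w) 2
      = (1 - (Dv k A B G S w - MS k A B S)) * Dv k A B G S w - Yv k A B G S w
        - rS k A B G S := by
  have h1 : ∑ y ∈ NH G S w, ((Qs G S w y).card : ℤ)
      = ((NH G S w).card : ℤ) * ((nb G S w).card : ℤ)
        - ∑ u ∈ NH G S w, ((nb G S u).card : ℤ) + 2 * K G (NH G S w) 2 := by
    rw [two_K_two, sum_congr rfl (fun y hy => card_Qs G S hy), sum_add_distrib,
      sum_sub_distrib, sum_const, nsmul_eq_mul]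
  rw [h1, sum_deg_NH G S hw, card_NH_aux G S hw]
  unfold Dv Yv rS MS rho th Mm nu
  ring

end Pool.Agent.Helper78.LSr
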